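import Pool.Agent.Q86.MK.A
import Pool.Agent.Q264.KS.Stm4

set_option autoImplicit false

namespace Q86.MK

open Module Metric Set Filter Topology

variable {X : Type*} [NormedAddCommGroup X] [NormedSpace ℝ X] [FiniteDimensional ℝ X]

/-- Existence of systems without a prescribed vector. -/
theorem exists_free {m : ℕ} (hm : finrank ℝ X = m + 1) {y : X} (hy : ‖y‖ = 1)
    (g : X →ₗ[ℝ] ℝ) (hg : g y = 1) {s : ℝ} (h0 : 0 < s) (h1 : s < 1) :
    ∃ (x : Fin (m + 1) → X) (f : Fin (m + 1) → X →ₗ[ℝ] ℝ), (∀ i, ‖x i‖ ≤ 1) ∧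
      (∀ i z, |f i z| ≤ ‖z‖) ∧ (∀ i, f i (x i) = 1) ∧ (∀ i, g (x i) ≠ 0) ∧
      (∀ i k, k ≠ i → f i (x k) = s * (g (x k) / g (x i))) ∧ LinearIndependent ℝ x := by
  classical
  have hy0 : y ≠ 0 := by
    rintro rfl
    simp at hy
  obtain ⟨b, -⟩ := exists_basis hm hy0
  obtain ⟨w, hw0, hw1, hw2, hw3⟩ := exists_feasible hm hy g hg b
  let K : Set (Fin (m + 1) → X) := univ.pi fun _ => closedBall (0 : X) 1
  have hK : IsCompact K := isCompact_univ_pi fun _ => isCompact_closedBall _ _
  have hwK : w ∈ K := fun i _ => by simpa using hw1 i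
  let P : (Fin (m + 1) → X) → ℝ := fun v =>
    (∏ i, |g (v i)| ^ s) * |b.det v| ^ (1 - s)
  have hgc : Continuous g := g.continuous_of_finiteDimensional
  have hdetc : Continuous fun v : Fin (m + 1) → X => b.det v := by
    have h2 : Continuous fun v : Fin (m + 1) → X => (b.toMatrix v).det := by
      refine Continuous.matrix_det ?_
      refine continuous_matrix fun i j => ?_
      simp only [Basis.toMatrix_apply]
      exact (b.coord i).continuous_of_finiteDimensional.comp (continuous_apply j)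
    exact h2
  have hPc : Continuous P := by
    refine Continuous.mul ?_ ?_
    · refine continuous_finsetProd _ fun i _ => ?_
      exact ((hgc.comp (continuous_apply i)).abs).rpow_const fun _ => Or.inr h0.le
    · exact hdetc.abs.rpow_const fun _ => Or.inr (by linarith)
  obtain ⟨v, hvK, hvmax⟩ := hK.exists_isMaxOn ⟨w, hwK⟩ hPc.continuousOn
  have hPw : 0 < P w := by
    refine mul_pos (Finset.prod_pos fun i _ => ?_) ?_
    · exact Real.rpow_pos_of_pos (abs_pos.2 (hw2 i)) _
    · exact Real.rpow_pos_of_pos (abs_pos.2 hw3) _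
  have hPv : 0 < P v := lt_of_lt_of_le hPw (hvmax hwK)
  have hv1 : ∀ i, ‖v i‖ ≤ 1 := fun i => by simpa using hvK i (mem_univ i)
  have hdet : b.det v ≠ 0 := by
    intro hcon
    simp only [P, hcon, abs_zero] at hPv
    rw [Real.zero_rpow (by linarith), mul_zero] at hPv
    exact lt_irrefl _ hPv
  have hgv : ∀ i, g (v i) ≠ 0 := by
    intro i hcon
    have : ∏ i, |g (v i)| ^ s = 0 := by
      refine Finset.prod_eq_zero (Finset.mem_univ i) ?_
      rw [hcon, abs_zero, Real.zero_rpow h0.ne']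
    simp only [P, this, zero_mul] at hPv
    exact lt_irrefl _ hPv
  -- the coordinate functionals
  let e : Fin (m + 1) → X →ₗ[ℝ] ℝ := fun i =>
    (b.det v)⁻¹ • b.det.toMultilinearMap.toLinearMap v i
  have he : ∀ i z, e i z = (b.det v)⁻¹ * b.det (Function.update v i z) := fun i z => rfl
  have he1 : ∀ i, e i (v i) = 1 := by
    intro i
    rw [he, Function.update_eq_self, inv_mul_cancel₀ hdet]
  have he0 : ∀ i j, j ≠ i → e i (v j) = 0 := by
    intro i j hij
    rw [he, b.det.map_update_self v hij.symm, mul_zero]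
  have hind : LinearIndependent ℝ v :=
    ((Basis.is_basis_iff_det b).2 (isUnit_iff_ne_zero.2 hdet)).1
  -- maximality in one variable
  have hmax : ∀ i, ∀ z, ‖z‖ ≤ 1 →
      |g z / g (v i)| ^ s * |e i z| ^ (1 - s) ≤ 1 := by
    intro i z hz
    have hmem : Function.update v i z ∈ K := by
      intro j _
      by_cases hj : j = i
      · subst hj
        simpa using hz
      · rw [Function.update_of_ne hj]
        simpa using hv1 j
    have h2 : P (Function.update v i z) ≤ P v := hvmax hmem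
    have h3 : ∏ j, |g (Function.update v i z j)| ^ s =
        |g z| ^ s * ∏ j ∈ Finset.univ.erase i, |g (v j)| ^ s := by
      rw [← Finset.mul_prod_erase _ _ (Finset.mem_univ i)]
      congr 1
      · simp
      · refine Finset.prod_congr rfl fun j hj => ?_
        rw [Function.update_of_ne (Finset.ne_of_mem_erase hj)]
    have h4 : ∏ j, |g (v j)| ^ s =
        |g (v i)| ^ s * ∏ j ∈ Finset.univ.erase i, |g (v j)| ^ s := by
      rw [← Finset.mul_prod_erase _ _ (Finset.mem_univ i)]
    have h5 : b.det (Function.update v i z) = e i z * b.det v := by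
      rw [he]
      field_simp
    simp only [P] at h2
    rw [h3, h4, h5, abs_mul, Real.mul_rpow (abs_nonneg _) (abs_nonneg _)] at h2
    have hR : 0 < ∏ j ∈ Finset.univ.erase i, |g (v j)| ^ s :=
      Finset.prod_pos fun j _ => Real.rpow_pos_of_pos (abs_pos.2 (hgv j)) _
    have hD : 0 < |b.det v| ^ (1 - s) := Real.rpow_pos_of_pos (abs_pos.2 hdet) _
    have hG : 0 < |g (v i)| ^ s := Real.rpow_pos_of_pos (abs_pos.2 (hgv i)) _
    rw [abs_div, Real.div_rpow (abs_nonneg _) (abs_nonneg _), div_mul_eq_mul_div,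
      div_le_one hG]
    have h6 : (|g z| ^ s * |e i z| ^ (1 - s)) *
        ((∏ j ∈ Finset.univ.erase i, |g (v j)| ^ s) * |b.det v| ^ (1 - s)) ≤
        |g (v i)| ^ s *
        ((∏ j ∈ Finset.univ.erase i, |g (v j)| ^ s) * |b.det v| ^ (1 - s)) := by
      calc _ = |g z| ^ s * (∏ j ∈ Finset.univ.erase i, |g (v j)| ^ s) *
            (|e i z| ^ (1 - s) * |b.det v| ^ (1 - s)) := by ring
        _ ≤ _ := h2
        _ = _ := by ring
    exact le_of_mul_le_mul_right h6 (mul_pos hR hD)
  let h : Fin (m + 1) → X →ₗ[ℝ] ℝ := fun i => (s / g (v i)) • g + (1 - s) • e i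
  have hhi : ∀ i, ∀ z, h i z = s * (g z / g (v i)) + (1 - s) * e i z := by
    intro i z
    simp only [h, LinearMap.add_apply, LinearMap.smul_apply, smul_eq_mul]
    ring
  have hself : ∀ i, h i (v i) = 1 := by
    intro i
    rw [hhi i, he1, div_self (hgv i)]
    ring
  have hle1 : ∀ i, ∀ z, ‖z‖ ≤ 1 → h i z ≤ 1 := by
    intro i z hz
    have h2 := ag_dir (A := g z / g (v i) - 1) (E := e i z - 1) h0 h1 ?_
    · rw [hhi i]
      linarith
    · intro t ht0 ht1
      have h3 : ‖(1 - t) • v i + t • z‖ ≤ 1 := by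
        refine (norm_add_le _ _).trans ?_
        rw [norm_smul, norm_smul, Real.norm_of_nonneg (by linarith), Real.norm_of_nonneg ht0.le]
        nlinarith [hv1 i]
      have h4 := hmax i _ h3
      have h5 : g ((1 - t) • v i + t • z) / g (v i) = 1 + t * (g z / g (v i) - 1) := by
        rw [map_add, map_smul, map_smul, smul_eq_mul, smul_eq_mul]
        have := hgv i
        field_simp
        ring
      have h6 : e i ((1 - t) • v i + t • z) = 1 + t * (e i z - 1) := by
        rw [map_add, map_smul, map_smul, smul_eq_mul, smul_eq_mul, he1]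
        ring
      rw [h5, h6] at h4
      exact h4
  have hle : ∀ i z, |h i z| ≤ ‖z‖ := by
    intro i z
    rcases eq_or_ne z 0 with rfl | hz
    · simp
    · have hzn : 0 < ‖z‖ := norm_pos_iff.2 hz
      have h2 : ∀ z' : X, ‖z'‖ = ‖z‖ → h i z' ≤ ‖z‖ := by
        intro z' hz'
        have h3 := hle1 i (‖z‖⁻¹ • z') (by
          rw [norm_smul, norm_inv, norm_norm, hz', inv_mul_cancel₀ hzn.ne'])
        rw [map_smul, smul_eq_mul, inv_mul_le_iff₀ hzn, mul_one] at h3
        exact h3
      rw [abs_le]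
      constructor
      · have := h2 (-z) (norm_neg z)
        rw [map_neg] at this
        linarith
      · exact h2 z rfl
  refine ⟨v, h, hv1, hle, hself, hgv, ?_, hind⟩
  intro i k hk
  rw [hhi i, he0 i k hk, mul_zero, add_zero]

end Q86.MK

namespace Q86.MK

open Module Pool.Agent.Q264.KS

universe u

theorem t_GA : S_GA.{u} := by
  intro X _ _ _ n hn hn2 p κ hp h0 h1
  obtain ⟨m, rfl⟩ : ∃ m, n = m + 1 := ⟨n - 1, by omega⟩
  have hfin : finrank ℝ (X →L[ℝ] ℝ) = m + 1 := by
    rw [← hn, ← LinearEquiv.finrank_eq (LinearMap.toContinuousLinearMap (𝕜 := ℝ) (E := X) (F' := ℝ))]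
    exact Subspace.dual_finrank_eq
  obtain ⟨y₀, hy₀n, hy₀⟩ := exists_dual_vector ℝ p (norm_ne_zero_iff.2 hp)
  have hy₀p : y₀ p ≠ 0 := by
    rw [hy₀]
    simpa using hp
  let g : (X →L[ℝ] ℝ) →ₗ[ℝ] ℝ :=
    { toFun := fun h => (y₀ p)⁻¹ * h p
      map_add' := fun a b => by simp [mul_add]
      map_smul' := fun c a => by simp [mul_left_comm] }
  have hg : ∀ h, g h = (y₀ p)⁻¹ * h p := fun h => rfl
  obtain ⟨h, φ, hn1, hle, hself, hgne, hoff, hind⟩ := exists_free (X := X →L[ℝ] ℝ) hfin
    (y := y₀) hy₀n g (by rw [hg, inv_mul_cancel₀ hy₀p]) h0 h1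
  have hev : ∀ ψ : (X →L[ℝ] ℝ) →ₗ[ℝ] ℝ, ∃ x : X, ∀ h : X →L[ℝ] ℝ, h x = ψ h := by
    intro ψ
    refine ⟨(Module.evalEquiv ℝ X).symm
      (ψ ∘ₗ (LinearMap.toContinuousLinearMap (𝕜 := ℝ) (E := X) (F' := ℝ) : _ →ₗ[ℝ] _)), ?_⟩
    intro h
    have h2 := Module.apply_evalEquiv_symm_apply ℝ X (h : X →ₗ[ℝ] ℝ)
      (ψ ∘ₗ (LinearMap.toContinuousLinearMap (𝕜 := ℝ) (E := X) (F' := ℝ) : _ →ₗ[ℝ] _))
    rw [ContinuousLinearMap.coe_coe] at h2
    rw [h2]
    rw [LinearMap.comp_apply]
    congr 1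
  choose v hv using fun i => hev (φ i)
  have hhp : ∀ i, h i p ≠ 0 := by
    intro i hi
    exact hgne i (by rw [hg, hi, mul_zero])
  have hle' : ∀ i y, h i y ≤ ‖y‖ := by
    intro i y
    have h2 := (h i).le_opNorm y
    have h3 := mul_le_mul_of_nonneg_right (hn1 i) (norm_nonneg y)
    rw [one_mul] at h3
    exact (le_abs_self _).trans (h2.trans h3)
  refine ⟨v, h, ⟨hle', ?_, ?_, hhp, ?_, hind⟩⟩
  · intro i
    refine le_antisymm ?_ ?_
    · obtain ⟨k, hk1, hk2⟩ := exists_dual_vector'' ℝ (v i)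
      have h2 : k (v i) = ‖v i‖ := by simpa using hk2
      rw [← h2, hv]
      exact (le_abs_self _).trans ((hle i k).trans hk1)
    · have h2 := hle' i (v i)
      rw [hv, hself] at h2
      exact h2
  · intro i
    rw [hv, hself]
  · intro k i hki
    rw [hv, hoff i k hki, hg, hg]
    have := hhp i
    field_simp

end Q86.MK
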