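import Pool.Agent.Q86.MK.Defs

set_option autoImplicit false

namespace Q86.MK

open Module Metric Set Filter Topology

variable {X : Type*} [NormedAddCommGroup X] [NormedSpace ℝ X] [FiniteDimensional ℝ X]

lemma ag_dir {s A E : ℝ} (h0 : 0 < s) (h1 : s < 1)
    (h : ∀ t : ℝ, 0 < t → t < 1 → |1 + t * A| ^ s * |1 + t * E| ^ (1 - s) ≤ 1) :
    s * A + (1 - s) * E ≤ 0 := by
  have hA : Tendsto (fun t : ℝ => 1 + t * A) (𝓝[>] 0) (𝓝 1) := by
    have : ContinuousAt (fun t : ℝ => 1 + t * A) 0 := by fun_prop
    simpa using this.tendsto.mono_left nhdsWithin_le_nhds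
  have hE : Tendsto (fun t : ℝ => 1 + t * E) (𝓝[>] 0) (𝓝 1) := by
    have : ContinuousAt (fun t : ℝ => 1 + t * E) 0 := by fun_prop
    simpa using this.tendsto.mono_left nhdsWithin_le_nhds
  have hlim : Tendsto (fun t : ℝ => s * (A / (1 + t * A)) + (1 - s) * (E / (1 + t * E))) (𝓝[>] 0)
      (𝓝 (s * (A / 1) + (1 - s) * (E / 1))) :=
    ((tendsto_const_nhds.div hA one_ne_zero).const_mul s).add
      ((tendsto_const_nhds.div hE one_ne_zero).const_mul (1 - s))
  have hev : ∀ᶠ t : ℝ in 𝓝[>] 0, s * (A / (1 + t * A)) + (1 - s) * (E / (1 + t * E)) ≤ 0 := by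
    have h1' : ∀ᶠ t : ℝ in 𝓝[>] 0, t < 1 :=
      (eventually_lt_nhds one_pos).filter_mono nhdsWithin_le_nhds
    filter_upwards [hA.eventually (eventually_gt_nhds (show (0 : ℝ) < 1 by norm_num)),
      hE.eventually (eventually_gt_nhds (show (0 : ℝ) < 1 by norm_num)), h1',
      self_mem_nhdsWithin] with t hpA hpE ht1 ht0
    have ht0' : 0 < t := ht0
    have h2 := h t ht0' ht1
    rw [abs_of_pos hpA, abs_of_pos hpE] at h2
    have h3 := Real.log_nonpos (by positivity) h2
    rw [Real.log_mul (by positivity) (by positivity), Real.log_rpow hpA, Real.log_rpow hpE] at h3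
    have h4 := Real.one_sub_inv_le_log_of_pos hpA
    have h5 := Real.one_sub_inv_le_log_of_pos hpE
    have h6 : 1 - (1 + t * A)⁻¹ = t * (A / (1 + t * A)) := by
      field_simp
      ring
    have h7 : 1 - (1 + t * E)⁻¹ = t * (E / (1 + t * E)) := by
      field_simp
      ring
    rw [h6] at h4
    rw [h7] at h5
    have h8 : t * (s * (A / (1 + t * A)) + (1 - s) * (E / (1 + t * E))) ≤ 0 := by
      nlinarith [mul_le_mul_of_nonneg_left h4 h0.le, mul_le_mul_of_nonneg_left h5
        (by linarith : (0 : ℝ) ≤ 1 - s)]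
    by_contra hcon
    push Not at hcon
    have := mul_pos ht0' hcon
    linarith
  have := le_of_tendsto hlim hev
  simpa using this

/-- A basis indexed by `Fin (m+1)` with a given first vector. -/
lemma exists_basis {m : ℕ} (hm : finrank ℝ X = m + 1) {y : X} (hy : y ≠ 0) :
    ∃ b : Basis (Fin (m + 1)) ℝ X, b 0 = y := by
  have hli : LinearIndependent ℝ (fun _ : Unit => y) := by
    rw [linearIndependent_unique_iff]
    exact hy
  let b₀ := Basis.sumExtend hli
  have : Finite (Unit ⊕ Basis.sumExtendIndex hli) := Module.Finite.finite_basis b₀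
  letI : Fintype (Unit ⊕ Basis.sumExtendIndex hli) := Fintype.ofFinite _
  have hcard : Fintype.card (Unit ⊕ Basis.sumExtendIndex hli) = Fintype.card (Fin (m + 1)) := by
    rw [Fintype.card_fin, ← hm, finrank_eq_card_basis b₀]
  let e₁ := Fintype.equivOfCardEq hcard
  let e := e₁.trans (Equiv.swap (e₁ (Sum.inl ())) 0)
  refine ⟨b₀.reindex e, ?_⟩
  have h1 : e (Sum.inl ()) = 0 := by simp [e]
  have h2 : e.symm 0 = Sum.inl () := by rw [← h1, Equiv.symm_apply_apply]
  rw [Basis.reindex_apply, h2]
  first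
    | rfl
    | (simp [b₀, Basis.sumExtend]; rfl)
    | (simp [b₀, Basis.sumExtend, Equiv.trans_apply, Equiv.sumCongr_apply,
        Equiv.Set.sumDiffSubset_apply_inl])

/-- There is a linearly independent family in the unit ball with a given first vector and on
which a given functional does not vanish. -/
lemma exists_feasible {m : ℕ} (hm : finrank ℝ X = m + 1) {y : X} (hy : ‖y‖ = 1)
    (g : X →ₗ[ℝ] ℝ) (hg : g y = 1) (b : Basis (Fin (m + 1)) ℝ X) :
    ∃ v : Fin (m + 1) → X, v 0 = y ∧ (∀ i, ‖v i‖ ≤ 1) ∧ (∀ i, g (v i) ≠ 0) ∧ b.det v ≠ 0 := by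
  have hy0 : y ≠ 0 := by
    rintro rfl
    simp at hy
  obtain ⟨w, hw⟩ := exists_basis hm hy0
  -- shear
  let c : Fin (m + 1) → ℝ := fun i => if i = 0 then 0 else 1 - g (w i)
  have hc0 : c 0 = 0 := by simp [c]
  let u : Fin (m + 1) → X := fun i => w i + c i • w 0
  have hu0 : u 0 = y := by simp [u, hc0, hw]
  have hgu : ∀ i, g (u i) = 1 := by
    intro i
    by_cases hi : i = 0
    · subst hi
      rw [hu0, hg]
    · simp [u, c, hi, hw, hg]
  have hli : LinearIndependent ℝ u := by
    rw [Fintype.linearIndependent_iff]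
    intro a ha
    have h1 : ∑ i, a i • u i = ∑ i, (if i = 0 then a 0 + ∑ j, a j * c j else a i) • w i := by
      simp only [u, smul_add, Finset.sum_add_distrib, smul_smul]
      rw [← Finset.sum_smul]
      have h2 : ∀ i, (if i = 0 then a 0 + ∑ j, a j * c j else a i) • w i =
          a i • w i + (if i = 0 then (∑ j, a j * c j) • w 0 else 0) := by
        intro i
        by_cases hi : i = 0
        · subst hi
          simp [add_smul]
        · simp [hi]
      rw [Finset.sum_congr rfl fun i _ => h2 i, Finset.sum_add_distrib]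
      simp
    rw [h1] at ha
    have h3 := Fintype.linearIndependent_iff.1 w.linearIndependent _ ha
    have h4 : ∀ i, i ≠ 0 → a i = 0 := by
      intro i hi
      simpa [hi] using h3 i
    have h5 : ∑ j, a j * c j = 0 := by
      refine Finset.sum_eq_zero fun j _ => ?_
      by_cases hj : j = 0
      · subst hj
        simp [hc0]
      · simp [h4 j hj]
    intro i
    by_cases hi : i = 0
    · subst hi
      have := h3 0
      simp only [if_true, h5, add_zero] at this
      exact this
    · exact h4 i hi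
  have hune : ∀ i, u i ≠ 0 := fun i => hli.ne_zero i
  have hun : ∀ i, ‖u i‖ ≠ 0 := fun i => norm_ne_zero_iff.2 (hune i)
  refine ⟨fun i => ‖u i‖⁻¹ • u i, ?_, ?_, ?_, ?_⟩
  · simp only
    rw [hu0, hy]
    simp
  · intro i
    rw [norm_smul, norm_inv, norm_norm, inv_mul_cancel₀ (hun i)]
  · intro i
    rw [map_smul, hgu, smul_eq_mul, mul_one]
    exact inv_ne_zero (hun i)
  · have h6 : LinearIndependent ℝ (fun i => ‖u i‖⁻¹ • u i) := by
      have := hli.units_smul (fun i => Units.mk0 (‖u i‖⁻¹) (inv_ne_zero (hun i)))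
      exact this
    have h7 : ⊤ ≤ Submodule.span ℝ (range fun i => ‖u i‖⁻¹ • u i) := by
      rw [h6.span_eq_top_of_card_eq_finrank' (by rw [Fintype.card_fin, hm])]
    exact ((Basis.is_basis_iff_det b).1 ⟨h6, top_le_iff.1 h7⟩).ne_zero

/-- **Existence of systems** with a prescribed first vector and first functional. -/
theorem exists_sys {m : ℕ} (hm : finrank ℝ X = m + 1) {y : X} (hy : ‖y‖ = 1)
    (g : X →ₗ[ℝ] ℝ) (hgle : ∀ z, |g z| ≤ ‖z‖) (hg : g y = 1) {s : ℝ} (h0 : 0 < s) (h1 : s < 1) :
    ∃ (x : Fin (m + 1) → X) (f : Fin (m + 1) → X →ₗ[ℝ] ℝ), x 0 = y ∧ f 0 = g ∧ Sys s x f := by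
  classical
  have hy0 : y ≠ 0 := by
    rintro rfl
    simp at hy
  obtain ⟨b, -⟩ := exists_basis hm hy0
  obtain ⟨w, hw0, hw1, hw2, hw3⟩ := exists_feasible hm hy g hg b
  let K : Set (Fin (m + 1) → X) := {v | v 0 = y} ∩ univ.pi fun _ => closedBall (0 : X) 1
  have hK : IsCompact K := by
    refine IsCompact.inter_left (isCompact_univ_pi fun _ => isCompact_closedBall _ _) ?_
    exact isClosed_eq (continuous_apply 0) continuous_const
  have hwK : w ∈ K := ⟨hw0, fun i _ => by simpa using hw1 i⟩
  let P : (Fin (m + 1) → X) → ℝ := fun v =>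
    (∏ i, |g (v i)| ^ s) * |b.det v| ^ (1 - s)
  have hgc : Continuous g := g.continuous_of_finiteDimensional
  have hdetc : Continuous fun v : Fin (m + 1) → X => b.det v := by
    have h2 : Continuous fun v : Fin (m + 1) → X => (b.toMatrix v).det := by
      refine Continuous.matrix_det ?_
      refine continuous_matrix fun i j => ?_
      simp only [Basis.toMatrix_apply]
      exact (b.coord i).continuous_of_finiteDimensional.comp (continuous_apply j)
    exact h2
  have hPc : Continuous P := by
    refine Continuous.mul ?_ ?_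
    · refine continuous_finsetProd _ fun i _ => ?_
      exact ((hgc.comp (continuous_apply i)).abs).rpow_const fun _ => Or.inr h0.le
    · exact hdetc.abs.rpow_const fun _ => Or.inr (by linarith)
  obtain ⟨v, hvK, hvmax⟩ := hK.exists_isMaxOn ⟨w, hwK⟩ hPc.continuousOn
  have hPw : 0 < P w := by
    refine mul_pos (Finset.prod_pos fun i _ => ?_) ?_
    · exact Real.rpow_pos_of_pos (abs_pos.2 (hw2 i)) _
    · exact Real.rpow_pos_of_pos (abs_pos.2 hw3) _
  have hPv : 0 < P v := lt_of_lt_of_le hPw (hvmax hwK)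
  have hv0 : v 0 = y := hvK.1
  have hv1 : ∀ i, ‖v i‖ ≤ 1 := fun i => by simpa using hvK.2 i (mem_univ i)
  have hdet : b.det v ≠ 0 := by
    intro hcon
    simp only [P, hcon, abs_zero] at hPv
    rw [Real.zero_rpow (by linarith), mul_zero] at hPv
    exact lt_irrefl _ hPv
  have hgv : ∀ i, g (v i) ≠ 0 := by
    intro i hcon
    have : ∏ i, |g (v i)| ^ s = 0 := by
      refine Finset.prod_eq_zero (Finset.mem_univ i) ?_
      rw [hcon, abs_zero, Real.zero_rpow h0.ne']
    simp only [P, this, zero_mul] at hPv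
    exact lt_irrefl _ hPv
  -- the coordinate functionals
  let e : Fin (m + 1) → X →ₗ[ℝ] ℝ := fun i =>
    (b.det v)⁻¹ • b.det.toMultilinearMap.toLinearMap v i
  have he : ∀ i z, e i z = (b.det v)⁻¹ * b.det (Function.update v i z) := fun i z => rfl
  have he1 : ∀ i, e i (v i) = 1 := by
    intro i
    rw [he, Function.update_eq_self, inv_mul_cancel₀ hdet]
  have he0 : ∀ i j, j ≠ i → e i (v j) = 0 := by
    intro i j hij
    rw [he, b.det.map_update_self v hij.symm, mul_zero]
  have hind : LinearIndependent ℝ v :=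
    ((Basis.is_basis_iff_det b).2 (isUnit_iff_ne_zero.2 hdet)).1
  -- maximality in one variable
  have hmax : ∀ i, i ≠ 0 → ∀ z, ‖z‖ ≤ 1 →
      |g z / g (v i)| ^ s * |e i z| ^ (1 - s) ≤ 1 := by
    intro i hi z hz
    have hmem : Function.update v i z ∈ K := by
      refine ⟨?_, fun j _ => ?_⟩
      · change Function.update v i z 0 = y
        rw [Function.update_of_ne hi.symm, hv0]
      · by_cases hj : j = i
        · subst hj
          simpa using hz
        · rw [Function.update_of_ne hj]
          simpa using hv1 j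
    have h2 : P (Function.update v i z) ≤ P v := hvmax hmem
    have h3 : ∏ j, |g (Function.update v i z j)| ^ s =
        |g z| ^ s * ∏ j ∈ Finset.univ.erase i, |g (v j)| ^ s := by
      rw [← Finset.mul_prod_erase _ _ (Finset.mem_univ i)]
      congr 1
      · simp
      · refine Finset.prod_congr rfl fun j hj => ?_
        rw [Function.update_of_ne (Finset.ne_of_mem_erase hj)]
    have h4 : ∏ j, |g (v j)| ^ s =
        |g (v i)| ^ s * ∏ j ∈ Finset.univ.erase i, |g (v j)| ^ s := by
      rw [← Finset.mul_prod_erase _ _ (Finset.mem_univ i)]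
    have h5 : b.det (Function.update v i z) = e i z * b.det v := by
      rw [he]
      field_simp
    simp only [P] at h2
    rw [h3, h4, h5, abs_mul, Real.mul_rpow (abs_nonneg _) (abs_nonneg _)] at h2
    have hR : 0 < ∏ j ∈ Finset.univ.erase i, |g (v j)| ^ s :=
      Finset.prod_pos fun j _ => Real.rpow_pos_of_pos (abs_pos.2 (hgv j)) _
    have hD : 0 < |b.det v| ^ (1 - s) := Real.rpow_pos_of_pos (abs_pos.2 hdet) _
    have hG : 0 < |g (v i)| ^ s := Real.rpow_pos_of_pos (abs_pos.2 (hgv i)) _
    rw [abs_div, Real.div_rpow (abs_nonneg _) (abs_nonneg _), div_mul_eq_mul_div,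
      div_le_one hG]
    have h6 : (|g z| ^ s * |e i z| ^ (1 - s)) *
        ((∏ j ∈ Finset.univ.erase i, |g (v j)| ^ s) * |b.det v| ^ (1 - s)) ≤
        |g (v i)| ^ s *
        ((∏ j ∈ Finset.univ.erase i, |g (v j)| ^ s) * |b.det v| ^ (1 - s)) := by
      calc _ = |g z| ^ s * (∏ j ∈ Finset.univ.erase i, |g (v j)| ^ s) *
            (|e i z| ^ (1 - s) * |b.det v| ^ (1 - s)) := by ring
        _ ≤ _ := h2
        _ = _ := by ring
    exact le_of_mul_le_mul_right h6 (mul_pos hR hD)
  let h : Fin (m + 1) → X →ₗ[ℝ] ℝ := fun i =>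
    if i = 0 then g else (s / g (v i)) • g + (1 - s) • e i
  have hh0 : h 0 = g := by simp [h]
  have hhi : ∀ i, i ≠ 0 → ∀ z, h i z = s * (g z / g (v i)) + (1 - s) * e i z := by
    intro i hi z
    simp only [h, hi, if_false, LinearMap.add_apply, LinearMap.smul_apply, smul_eq_mul]
    ring
  have hself : ∀ i, h i (v i) = 1 := by
    intro i
    by_cases hi : i = 0
    · subst hi
      rw [hh0, hv0, hg]
    · rw [hhi i hi, he1, div_self (hgv i)]
      ring
  have hle1 : ∀ i, i ≠ 0 → ∀ z, ‖z‖ ≤ 1 → h i z ≤ 1 := by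
    intro i hi z hz
    have h2 := ag_dir (A := g z / g (v i) - 1) (E := e i z - 1) h0 h1 ?_
    · rw [hhi i hi]
      linarith
    · intro t ht0 ht1
      have h3 : ‖(1 - t) • v i + t • z‖ ≤ 1 := by
        refine (norm_add_le _ _).trans ?_
        rw [norm_smul, norm_smul, Real.norm_of_nonneg (by linarith), Real.norm_of_nonneg ht0.le]
        nlinarith [hv1 i]
      have h4 := hmax i hi _ h3
      have h5 : g ((1 - t) • v i + t • z) / g (v i) = 1 + t * (g z / g (v i) - 1) := by
        rw [map_add, map_smul, map_smul, smul_eq_mul, smul_eq_mul]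
        have := hgv i
        field_simp
        ring
      have h6 : e i ((1 - t) • v i + t • z) = 1 + t * (e i z - 1) := by
        rw [map_add, map_smul, map_smul, smul_eq_mul, smul_eq_mul, he1]
        ring
      rw [h5, h6] at h4
      exact h4
  have hle : ∀ i z, |h i z| ≤ ‖z‖ := by
    intro i z
    by_cases hi : i = 0
    · subst hi
      rw [hh0]
      exact hgle z
    · rcases eq_or_ne z 0 with rfl | hz
      · simp
      · have hzn : 0 < ‖z‖ := norm_pos_iff.2 hz
        have h2 : ∀ z' : X, ‖z'‖ = ‖z‖ → h i z' ≤ ‖z‖ := by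
          intro z' hz'
          have h3 := hle1 i hi (‖z‖⁻¹ • z') (by
            rw [norm_smul, norm_inv, norm_norm, hz', inv_mul_cancel₀ hzn.ne'])
          rw [map_smul, smul_eq_mul, inv_mul_le_iff₀ hzn, mul_one] at h3
          exact h3
        rw [abs_le]
        constructor
        · have := h2 (-z) (norm_neg z)
          rw [map_neg] at this
          linarith
        · exact h2 z rfl
  have hnorm : ∀ i, ‖v i‖ = 1 := by
    intro i
    refine le_antisymm (hv1 i) ?_
    have := hle i (v i)
    rwa [hself, abs_one] at this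
  refine ⟨v, h, hv0, hh0, hnorm, hle, hself, ?_, ?_, hind⟩
  · intro j
    rw [hh0]
    exact hgv j
  · intro i hi j hj
    rw [hhi i hi, he0 i j hj, hh0, mul_zero, add_zero]
    ring

end Q86.MK
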