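import Pool.Agent.Q86.MK.Defs

set_option autoImplicit false

namespace Q86.MK

open Module Metric Set MeasureTheory

variable {X : Type*} [NormedAddCommGroup X] [NormedSpace ℝ X] [FiniteDimensional ℝ X]

section Meas
variable [MeasurableSpace X] [BorelSpace X]

lemma map_isometry (μ : Measure X) [μ.IsAddHaarMeasure] (U : X ≃ₗᵢ[ℝ] X) :
    Measure.map U μ = μ := by
  have hdet : LinearMap.det (U.toLinearEquiv : X →ₗ[ℝ] X) ≠ 0 := by
    exact (LinearEquiv.isUnit_det' U.toLinearEquiv).ne_zero
  have h1 := Measure.map_linearMap_addHaar_eq_smul_addHaar μ hdet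
  have h2 : (Measure.map U μ) (closedBall 0 1) = μ (closedBall 0 1) := by
    rw [Measure.map_apply U.continuous.measurable isClosed_closedBall.measurableSet]
    congr 1
    ext z
    simp
  have h3 : Measure.map U μ =
      ENNReal.ofReal |(LinearMap.det (U.toLinearEquiv : X →ₗ[ℝ] X))⁻¹| • μ := h1
  have h4 : ENNReal.ofReal |(LinearMap.det (U.toLinearEquiv : X →ₗ[ℝ] X))⁻¹| = 1 := by
    rw [h3, Measure.smul_apply, smul_eq_mul] at h2
    have h5 : μ (closedBall 0 1) ≠ 0 := (measure_closedBall_pos μ 0 one_pos).ne'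
    have h6 : μ (closedBall 0 1) ≠ ⊤ := measure_closedBall_lt_top.ne
    exact (ENNReal.mul_eq_right h5 h6).1 h2
  rw [h3, h4, one_smul]

/-- The moment map of the unit ball. -/
noncomputable def mom (μ : Measure X) [μ.IsAddHaarMeasure] : Dual ℝ X →ₗ[ℝ] X where
  toFun f := ∫ y in closedBall (0 : X) 1, f y • y ∂μ
  map_add' f g := by
    rw [← integral_add]
    · congr 1
      ext y
      simp [add_smul]
    · exact ((f.continuous_of_finiteDimensional.smul continuous_id).continuousOn).integrableOn_compact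
        (isCompact_closedBall _ _)
    · exact ((g.continuous_of_finiteDimensional.smul continuous_id).continuousOn).integrableOn_compact
        (isCompact_closedBall _ _)
  map_smul' c f := by
    rw [RingHom.id_apply, ← integral_smul]
    congr 1
    ext y
    simp [mul_smul]

lemma mom_apply (μ : Measure X) [μ.IsAddHaarMeasure] (f g : Dual ℝ X) :
    g (mom μ f) = ∫ y in closedBall (0 : X) 1, f y * g y ∂μ := by
  have h1 : IntegrableOn (fun y : X => f y • y) (closedBall (0 : X) 1) μ :=
    ((f.continuous_of_finiteDimensional.smul continuous_id).continuousOn).integrableOn_compact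
        (isCompact_closedBall _ _)
  have h2 := ContinuousLinearMap.integral_comp_comm (LinearMap.toContinuousLinearMap g) h1
  simp only [LinearMap.coe_toContinuousLinearMap', map_smul, smul_eq_mul] at h2
  rw [mom]
  exact h2.symm

lemma mom_pos (μ : Measure X) [μ.IsAddHaarMeasure] {f : Dual ℝ X} (hf : f ≠ 0) :
    0 < f (mom μ f) := by
  rw [mom_apply]
  have hc : Continuous fun y : X => f y * f y :=
    f.continuous_of_finiteDimensional.mul f.continuous_of_finiteDimensional
  obtain ⟨z, hz⟩ : ∃ z, f z ≠ 0 := by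
    by_contra hcon
    push Not at hcon
    exact hf (LinearMap.ext hcon)
  have hint : IntegrableOn (fun y : X => f y * f y) (closedBall (0 : X) 1) μ :=
    hc.continuousOn.integrableOn_compact (isCompact_closedBall _ _)
  rw [integral_pos_iff_support_of_nonneg (fun y => mul_self_nonneg _) hint]
  rw [Measure.restrict_apply' isClosed_closedBall.measurableSet]
  have hopen : IsOpen (Function.support (fun y : X => f y * f y) ∩ ball (0 : X) 1) :=
    hc.isOpen_support.inter isOpen_ball
  have hz0 : z ≠ 0 := by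
    rintro rfl
    simp at hz
  have hne : (Function.support (fun y : X => f y * f y) ∩ ball (0 : X) 1).Nonempty := by
    refine ⟨(2 * ‖z‖)⁻¹ • z, ?_, ?_⟩
    · simp [hz, hz0]
    · rw [mem_ball_zero_iff, norm_smul, norm_inv, norm_mul, norm_norm]
      have : (0 : ℝ) < ‖z‖ := norm_pos_iff.2 hz0
      rw [mul_inv, mul_assoc, inv_mul_cancel₀ this.ne']
      norm_num
  refine lt_of_lt_of_le (hopen.measure_pos μ hne) (measure_mono ?_)
  exact inter_subset_inter_right _ ball_subset_closedBall

lemma mom_isometry (μ : Measure X) [μ.IsAddHaarMeasure] (U : X ≃ₗᵢ[ℝ] X) (f : Dual ℝ X) :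
    mom μ (f ∘ₗ (U.symm.toLinearEquiv : X →ₗ[ℝ] X)) = U (mom μ f) := by
  have h1 : IntegrableOn (fun y : X => f y • y) (closedBall (0 : X) 1) μ :=
    ((f.continuous_of_finiteDimensional.smul continuous_id).continuousOn).integrableOn_compact
        (isCompact_closedBall _ _)
  have h2 := ContinuousLinearMap.integral_comp_comm (U.toContinuousLinearEquiv : X →L[ℝ] X) h1
  have hmp : MeasurePreserving U μ μ := ⟨U.continuous.measurable, map_isometry μ U⟩
  have hemb : MeasurableEmbedding U := U.toHomeomorph.measurableEmbedding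
  have h3 := hmp.setIntegral_preimage_emb hemb
    (fun y => (f ∘ₗ (U.symm.toLinearEquiv : X →ₗ[ℝ] X)) y • y) (closedBall (0 : X) 1)
  have h4 : U ⁻¹' (closedBall (0 : X) 1) = closedBall (0 : X) 1 := by
    ext z
    simp
  rw [h4] at h3
  change ∫ y in closedBall (0 : X) 1, (f ∘ₗ (U.symm.toLinearEquiv : X →ₗ[ℝ] X)) y • y ∂μ =
    U (∫ y in closedBall (0 : X) 1, f y • y ∂μ)
  rw [← h3]
  have h5 : U (∫ y in closedBall (0 : X) 1, f y • y ∂μ) =
      ∫ y in closedBall (0 : X) 1, U (f y • y) ∂μ := h2.symm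
  rw [h5]
  congr 1
  ext y
  simp

end Meas

/-- If the linear isometries act transitively on the unit sphere (up to sign) then the norm is
induced by an inner product. -/
theorem hilbert_of_transitive {x₀ : X} (hx₀ : ‖x₀‖ = 1)
    (h : ∀ y : X, ‖y‖ = 1 → ∃ U : X ≃ₗᵢ[ℝ] X, U x₀ = y ∨ U x₀ = -y) : IsHilbert X := by
  letI : MeasurableSpace X := borel X
  haveI : BorelSpace X := ⟨rfl⟩
  let μ : Measure X := Measure.addHaar
  have hinj : Function.Injective (mom μ) := by
    rw [injective_iff_map_eq_zero]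
    intro f hf
    by_contra hne
    have := mom_pos μ hne
    rw [hf] at this
    simp at this
  have hdim : finrank ℝ (Dual ℝ X) = finrank ℝ X := Subspace.dual_finrank_eq
  let e := LinearMap.linearEquivOfInjective (mom μ) hinj hdim
  have he : ∀ f, e f = mom μ f := fun f => rfl
  let b : X →ₗ[ℝ] X →ₗ[ℝ] ℝ := (e.symm : X →ₗ[ℝ] Dual ℝ X)
  have hb : ∀ x y, b x y = (e.symm x) y := fun x y => rfl
  have hinv : ∀ (U : X ≃ₗᵢ[ℝ] X) x, b (U x) (U x) = b x x := by
    intro U x
    have h1 : e ((e.symm x) ∘ₗ (U.symm.toLinearEquiv : X →ₗ[ℝ] X)) = U x := by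
      rw [he, mom_isometry, ← he, e.apply_symm_apply]
    have h2 : e.symm (U x) = (e.symm x) ∘ₗ (U.symm.toLinearEquiv : X →ₗ[ℝ] X) := by
      rw [← h1, e.symm_apply_apply]
    rw [hb, h2]
    simp [hb]
  set q := b x₀ x₀ with hq
  have hunit : ∀ y : X, ‖y‖ = 1 → b y y = q := by
    intro y hy
    obtain ⟨U, hU | hU⟩ := h y hy
    · rw [← hU, hinv]
    · have h3 : y = -(U x₀) := by rw [hU, neg_neg]
      rw [h3, map_neg, map_neg, LinearMap.neg_apply, neg_neg, hinv]
  have hall : ∀ y : X, b y y = ‖y‖ ^ 2 * q := by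
    intro y
    rcases eq_or_ne y 0 with rfl | hy
    · simp
    · have hny : ‖y‖ ≠ 0 := norm_ne_zero_iff.2 hy
      have h1 := hunit (‖y‖⁻¹ • y) (by rw [norm_smul, norm_inv, norm_norm, inv_mul_cancel₀ hny])
      rw [map_smul, map_smul, LinearMap.smul_apply, smul_eq_mul, smul_eq_mul] at h1
      field_simp at h1
      linarith
  have hq0 : q ≠ 0 := by
    intro hq0
    have hx0 : x₀ ≠ 0 := by
      rintro rfl
      simp at hx₀
    have h1 : e.symm x₀ ≠ 0 := by
      rw [Ne, LinearEquiv.map_eq_zero_iff]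
      exact hx0
    have h2 := mom_pos μ h1
    rw [← he, e.apply_symm_apply] at h2
    have h3 : (e.symm x₀) x₀ = q := rfl
    rw [h3, hq0] at h2
    exact lt_irrefl _ h2
  refine ⟨(2 * q)⁻¹ • (b + b.flip), fun x y => ?_, fun x => ?_⟩
  · simp [LinearMap.add_apply, LinearMap.flip_apply, add_comm]
  · simp only [LinearMap.smul_apply, LinearMap.add_apply, LinearMap.flip_apply, smul_eq_mul, hall]
    field_simp
    ring

end Q86.MK
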