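import Pool.Agent.Q86.MK.Defs

set_option autoImplicit false

namespace Q86.MK

open Module Metric Set MeasureTheory

variable {X : Type*} [NormedAddCommGroup X] [NormedSpace ℝ X] [FiniteDimensional ℝ X]

/-- Points of differentiability of the norm are dense in the unit sphere. -/
lemma dense_smooth {v : X} (hv : ‖v‖ = 1) {ε : ℝ} (hε : 0 < ε) :
    ∃ x : X, ‖x‖ = 1 ∧ DifferentiableAt ℝ (fun z : X => ‖z‖) x ∧ ‖x - v‖ < ε := by
  letI : MeasurableSpace X := borel X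
  haveI : BorelSpace X := ⟨rfl⟩
  have hL : LipschitzWith 1 (fun z : X => ‖z‖) := lipschitzWith_one_norm
  have hae := hL.ae_differentiableAt (μ := (Measure.addHaar : Measure X))
  have hd := Measure.dense_of_ae hae
  obtain ⟨x, hx, hxv⟩ := Metric.dense_iff.1 hd v (min (ε / 4) (1 / 2)) (by positivity)
  rw [mem_ball, dist_eq_norm] at hx
  have hx1 : ‖x - v‖ < ε / 4 := lt_of_lt_of_le hx (min_le_left _ _)
  have hx2 : ‖x - v‖ < 1 / 2 := lt_of_lt_of_le hx (min_le_right _ _)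
  have h3 : |‖x‖ - 1| ≤ ‖x - v‖ := by
    rw [← hv]
    exact abs_norm_sub_norm_le x v
  have h4 : 1 / 2 < ‖x‖ := by
    have := (abs_le.1 h3).1
    linarith
  have hx0 : 0 < ‖x‖ := by linarith
  refine ⟨‖x‖⁻¹ • x, ?_, ?_, ?_⟩
  · rw [norm_smul, norm_inv, norm_norm, inv_mul_cancel₀ hx0.ne']
  · exact (differentiableAt_norm_smul (inv_ne_zero hx0.ne')).1 hxv
  · have h5 : ‖x‖⁻¹ • x - v = (‖x‖⁻¹ - 1) • x + (x - v) := by
      rw [sub_smul, one_smul]
      abel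
    rw [h5]
    have h6 : ‖(‖x‖⁻¹ - 1) • x‖ = |‖x‖ - 1| := by
      rw [norm_smul, Real.norm_eq_abs]
      have h7 : |‖x‖⁻¹ - 1| * ‖x‖ = |(‖x‖⁻¹ - 1) * ‖x‖| := by
        rw [abs_mul, abs_norm]
      rw [h7, sub_mul, inv_mul_cancel₀ hx0.ne', one_mul, abs_sub_comm]
    calc ‖(‖x‖⁻¹ - 1) • x + (x - v)‖ ≤ ‖(‖x‖⁻¹ - 1) • x‖ + ‖x - v‖ := norm_add_le _ _
      _ ≤ ‖x - v‖ + ‖x - v‖ := by rw [h6]; linarith
      _ < ε := by linarith

/-- There are two nearby unit vectors where the norm is differentiable with different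
derivatives. -/
lemma exists_pair (hdim : 2 ≤ finrank ℝ X) :
    ∃ x y : X, ‖x‖ = 1 ∧ ‖y‖ = 1 ∧ DifferentiableAt ℝ (fun z : X => ‖z‖) x ∧
      DifferentiableAt ℝ (fun z : X => ‖z‖) y ∧ ‖x - y‖ < 1 ∧
      fderiv ℝ (fun z : X => ‖z‖) x ≠ fderiv ℝ (fun z : X => ‖z‖) y := by
  by_contra hcon
  push Not at hcon
  have hnt : Nontrivial X := by
    rw [← Module.finrank_pos_iff (R := ℝ)]
    omega
  obtain ⟨v, hv⟩ := exists_norm_eq X (zero_le_one (α := ℝ))
  obtain ⟨x, hx1, hx2, -⟩ := dense_smooth hv one_pos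
  set f := fderiv ℝ (fun z : X => ‖z‖) x with hf
  let u : Set X := ⋃ p ∈ {p : X | ‖p‖ = 1 ∧ DifferentiableAt ℝ (fun z : X => ‖z‖) p ∧
    fderiv ℝ (fun z : X => ‖z‖) p = f}, ball p (1 / 2)
  have hu : IsOpen u := isOpen_biUnion fun p _ => isOpen_ball
  have hrank : 1 < Module.rank ℝ X := by
    rw [← finrank_eq_rank]
    exact_mod_cast (by omega : 1 < finrank ℝ X)
  have hpre : IsPreconnected (sphere (0 : X) 1) := isPreconnected_sphere hrank 0 1
  have hsub : sphere (0 : X) 1 ⊆ u := by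
    refine hpre.subset_of_closure_inter_subset hu ⟨x, by simpa using hx1, ?_⟩ ?_
    · exact mem_biUnion (x := x) ⟨hx1, hx2, rfl⟩ (mem_ball_self (by norm_num))
    · rintro w ⟨hwc, hws⟩
      obtain ⟨p, hp, hwp⟩ := Metric.mem_closure_iff.1 hwc (1 / 8) (by norm_num)
      obtain ⟨q, hq, hpq⟩ := mem_iUnion₂.1 hp
      have hw1 : ‖w‖ = 1 := by simpa using hws
      obtain ⟨r, hr1, hr2, hr3⟩ := dense_smooth hw1 (show (0 : ℝ) < 1 / 8 by norm_num)
      have h5 : ‖r - q‖ < 1 := by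
        have h6 : r - q = (r - w) + (w - p) + (p - q) := by abel
        rw [h6]
        rw [dist_eq_norm] at hwp
        rw [mem_ball, dist_eq_norm] at hpq
        have h7 := norm_add_le ((r - w) + (w - p)) (p - q)
        have h8 := norm_add_le (r - w) (w - p)
        linarith
      have h9 := hcon r q hr1 hq.1 hr2 hq.2.1 h5
      refine mem_biUnion (x := r) ⟨hr1, hr2, h9.trans hq.2.2⟩ ?_
      rw [mem_ball, dist_eq_norm, norm_sub_rev]
      linarith
  have hneg : -x ∈ u := hsub (by simpa using hx1)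
  obtain ⟨q, hq, hxq⟩ := mem_iUnion₂.1 hneg
  obtain ⟨h1, h2⟩ := fderiv_props hx2
  obtain ⟨h3, h4⟩ := fderiv_props hq.2.1
  rw [hq.2.2, hq.1] at h3
  rw [hq.2.2] at h4
  rw [← hf, hx1] at h1
  have h5 := (abs_le.1 (h4 (-x - q))).1
  rw [mem_ball, dist_eq_norm] at hxq
  rw [map_sub, map_neg, h1, h3] at h5
  linarith

end Q86.MK
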