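import Mathlib

/-!
# Birkhoff-James orthogonality, `K`-sets and property (P)
-/

set_option autoImplicit false

namespace Q86.MK

open Module Metric Set

variable {X : Type*} [NormedAddCommGroup X] [NormedSpace ℝ X]

/-- Birkhoff-James orthogonality `x ⊥ y`. -/
def BJ (x y : X) : Prop := ∀ t : ℝ, ‖x‖ ≤ ‖x + t • y‖

/-- The operator `T` preserves Birkhoff-James orthogonality at `x`. -/
def PreservesAt (T : X →ₗ[ℝ] X) (x : X) : Prop := ∀ y, BJ x y → BJ (T x) (T y)

/-- `A` is a `K`-set: a subset of the unit sphere such that every operator which preserves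
Birkhoff-James orthogonality at all points of `A` is a scalar multiple of a linear isometry. -/
def IsKSet (A : Set X) : Prop :=
  A ⊆ sphere 0 1 ∧ ∀ T : X →ₗ[ℝ] X, (∀ x ∈ A, PreservesAt T x) →
    ∃ (c : ℝ) (U : X ≃ₗᵢ[ℝ] X), ∀ z, T z = c • U z

/-- `A` is a minimal `K`-set: a `K`-set with no proper subset which is a `K`-set. -/
def IsMinimalKSet (A : Set X) : Prop := IsKSet A ∧ ∀ B, B ⊂ A → ¬ IsKSet B

/-- Conditions (i) and (ii) of the problem: `A` consists of `n = dim X` linearly independent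
vectors, and whenever `A = A₁ ∪ A₂` with `A₁`, `A₂` nonempty, not every element of `A₁` is
orthogonal to every element of `A₂`. -/
def IsGoodBasis (A : Set X) : Prop :=
  (∃ x : Fin (finrank ℝ X) → X, LinearIndependent ℝ x ∧ A = range x) ∧
    ∀ A₁ A₂ : Set X, A₁.Nonempty → A₂.Nonempty → A = A₁ ∪ A₂ → ¬ ∀ x ∈ A₁, ∀ y ∈ A₂, BJ x y

/-- Property (P): for every nonempty subset `A` of the unit sphere, `A` is a minimal `K`-set if
and only if (i) and (ii) hold. -/
def PropertyP (X : Type*) [NormedAddCommGroup X] [NormedSpace ℝ X] : Prop :=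
  ∀ A : Set X, A.Nonempty → A ⊆ sphere 0 1 → (IsMinimalKSet A ↔ IsGoodBasis A)

/-- The norm of `X` is induced by an inner product. -/
def IsHilbert (X : Type*) [NormedAddCommGroup X] [NormedSpace ℝ X] : Prop :=
  ∃ B : X →ₗ[ℝ] X →ₗ[ℝ] ℝ, (∀ x y, B x y = B y x) ∧ ∀ x, B x x = ‖x‖ ^ 2

/-- A system of unit vectors `x i` with support functionals `f i` whose matrix is, up to a
diagonal conjugation, the matrix with entries `1` on the diagonal and in row `0`, and `s`
elsewhere. -/
structure Sys {m : ℕ} (s : ℝ) (x : Fin (m + 1) → X) (f : Fin (m + 1) → X →ₗ[ℝ] ℝ) : Prop where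
  norm_x : ∀ i, ‖x i‖ = 1
  le : ∀ i z, |f i z| ≤ ‖z‖
  self : ∀ i, f i (x i) = 1
  ne : ∀ j, f 0 (x j) ≠ 0
  eq : ∀ i, i ≠ 0 → ∀ j, j ≠ i → f i (x j) = s * f 0 (x j) / f 0 (x i)
  ind : LinearIndependent ℝ x

/-- A functional of norm at most one which is `1` at a unit vector where the norm is
differentiable is the derivative. -/
lemma deriv_eq {x y : X} (hx : DifferentiableAt ℝ (fun z : X => ‖z‖) x) {c : ℝ}
    (h : ∀ t : ℝ, ‖x‖ + t * c ≤ ‖x + t • y‖) : fderiv ℝ (fun z : X => ‖z‖) x y = c := by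
  have h1 : HasDerivAt (fun t : ℝ => ‖x + t • y‖) (fderiv ℝ (fun z : X => ‖z‖) x y) 0 := by
    have h2 : HasFDerivAt (fun z : X => ‖z‖) (fderiv ℝ (fun z : X => ‖z‖) x) (x + (0 : ℝ) • y) := by
      simpa using hx.hasFDerivAt
    have h3 : HasDerivAt (fun t : ℝ => x + t • y) y 0 := by
      simpa using ((hasDerivAt_id (0 : ℝ)).smul_const y).const_add x
    exact h2.comp_hasDerivAt (0 : ℝ) h3
  have h4 : HasDerivAt (fun t : ℝ => ‖x + t • y‖ - (‖x‖ + t * c))
      (fderiv ℝ (fun z : X => ‖z‖) x y - c) 0 := by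
    refine h1.sub ?_
    simpa using ((hasDerivAt_id (0 : ℝ)).mul_const c).const_add ‖x‖
  have h5 : IsLocalMin (fun t : ℝ => ‖x + t • y‖ - (‖x‖ + t * c)) 0 := by
    refine Filter.Eventually.of_forall fun t => ?_
    have := h t
    simp only [zero_smul, add_zero, zero_mul, sub_self]
    linarith
  have := h5.hasDerivAt_eq_zero h4
  linarith

lemma fderiv_eq_of_BJ {x y : X} (hx : DifferentiableAt ℝ (fun z : X => ‖z‖) x) (h : BJ x y) :
    fderiv ℝ (fun z : X => ‖z‖) x y = 0 :=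
  deriv_eq hx fun t => by simpa using h t

lemma fderiv_eq_of_support {x : X} (hx : DifferentiableAt ℝ (fun z : X => ‖z‖) x)
    {f : X →ₗ[ℝ] ℝ} (h1 : ∀ z, |f z| ≤ ‖z‖) (h2 : f x = ‖x‖) (y : X) :
    fderiv ℝ (fun z : X => ‖z‖) x y = f y := by
  refine deriv_eq hx fun t => ?_
  have := (le_abs_self _).trans (h1 (x + t • y))
  rw [map_add, map_smul, h2, smul_eq_mul] at this
  exact this

/-- The support functional given by the derivative. -/
lemma fderiv_props {x : X} (hx : DifferentiableAt ℝ (fun z : X => ‖z‖) x) :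
    fderiv ℝ (fun z : X => ‖z‖) x x = ‖x‖ ∧ ∀ z, |fderiv ℝ (fun z : X => ‖z‖) x z| ≤ ‖z‖ := by
  refine ⟨hx.fderiv_norm_self, fun z => ?_⟩
  rcases subsingleton_or_nontrivial X with h | h
  · rw [Subsingleton.elim z 0]; simp
  · have := (fderiv ℝ (fun z : X => ‖z‖) x).le_opNorm z
    rw [norm_fderiv_norm hx, one_mul] at this
    exact this

end Q86.MK
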