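import Pool.Agent.Q86.MK.Defs

set_option autoImplicit false

namespace Q86.MK

open Module Metric Set Filter Topology

variable {X : Type*} [NormedAddCommGroup X] [NormedSpace ℝ X] [FiniteDimensional ℝ X]

/-- If the unit ball has a facet then not all good bases are `K`-sets. -/
theorem false_of_facet (hdim : 2 ≤ finrank ℝ X) (f : X →ₗ[ℝ] ℝ) {O : Set X} (hO : IsOpen O)
    (hne : O.Nonempty) (hf : ∀ x ∈ O, ‖x‖ = f x)
    (hP : ∀ A : Set X, A ⊆ sphere 0 1 → IsGoodBasis A → IsKSet A) : False := by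
  classical
  obtain ⟨k, hk⟩ : ∃ k, finrank ℝ X = k + 2 := ⟨finrank ℝ X - 2, by omega⟩
  have hspan : Submodule.span ℝ O = ⊤ := by
    refine Submodule.eq_top_of_nonempty_interior' _ ?_
    obtain ⟨p, hp⟩ := hne
    exact ⟨p, mem_interior.2 ⟨O, Submodule.subset_span, hO, hp⟩⟩
  let b₁ := Basis.ofSpan (K := ℝ) (V := X) (s := O) hspan.ge
  have hb₁ : range b₁ ⊆ O := Basis.ofSpan_subset hspan.ge
  have hfin : Finite ↑((linearIndepOn_empty ℝ (id : X → X)).extend (empty_subset O)) :=
    Module.Finite.finite_basis b₁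
  letI := Fintype.ofFinite ↑((linearIndepOn_empty ℝ (id : X → X)).extend (empty_subset O))
  have hcard : Fintype.card ↑((linearIndepOn_empty ℝ (id : X → X)).extend (empty_subset O)) =
      Fintype.card (Fin (k + 2)) := by
    rw [Fintype.card_fin, ← hk, finrank_eq_card_basis b₁]
  let b := b₁.reindex (Fintype.equivOfCardEq hcard)
  have hb : ∀ i, b i ∈ O := by
    intro i
    refine hb₁ ?_
    rw [Basis.reindex_apply]
    exact mem_range_self _
  have hder : ∀ p ∈ O, HasFDerivAt (fun z : X => ‖z‖) (LinearMap.toContinuousLinearMap f) p := by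
    intro p hp
    refine (LinearMap.toContinuousLinearMap f).hasFDerivAt.congr_of_eventuallyEq ?_
    filter_upwards [hO.mem_nhds hp] with z hz
    exact hf z hz
  have hle : ∀ z, |f z| ≤ ‖z‖ := by
    intro z
    have h1 := (fderiv_props (hder _ (hb 0)).differentiableAt).2 z
    rw [(hder _ (hb 0)).fderiv] at h1
    exact h1
  have hbn : ∀ i, ‖b i‖ ≠ 0 := fun i => norm_ne_zero_iff.2 (b.ne_zero i)
  let x : Fin (k + 2) → X := fun i => ‖b i‖⁻¹ • b i
  have hx1 : ∀ i, ‖x i‖ = 1 := fun i => by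
    simp only [x]
    rw [norm_smul, norm_inv, norm_norm, inv_mul_cancel₀ (hbn i)]
  have hfx : ∀ i, f (x i) = 1 := fun i => by
    simp only [x]
    rw [map_smul, smul_eq_mul, ← hf _ (hb i), inv_mul_cancel₀ (hbn i)]
  have hxs : ∀ i, DifferentiableAt ℝ (fun z : X => ‖z‖) (x i) := fun i =>
    (differentiableAt_norm_smul (inv_ne_zero (hbn i))).1 (hder _ (hb i)).differentiableAt
  have hind : LinearIndependent ℝ x :=
    b.linearIndependent.units_smul fun i => Units.mk0 (‖b i‖⁻¹) (inv_ne_zero (hbn i))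
  have hBJ : ∀ i z, BJ (x i) z → f z = 0 := by
    intro i z hz
    have h1 := fderiv_eq_of_BJ (hxs i) hz
    rwa [fderiv_eq_of_support (hxs i) hle (by rw [hfx, hx1])] at h1
  have hgood : IsGoodBasis (range x) := by
    refine ⟨⟨x ∘ (finCongr hk), hind.comp _ (finCongr hk).injective, ?_⟩, ?_⟩
    · rw [(finCongr hk).surjective.range_comp]
    · rintro A₁ A₂ ⟨a, ha⟩ ⟨c, hc⟩ hA hcon
      have h1 : a ∈ range x := by
        rw [hA]
        exact Or.inl ha
      have h2 : c ∈ range x := by
        rw [hA]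
        exact Or.inr hc
      obtain ⟨i, rfl⟩ := h1
      obtain ⟨j, rfl⟩ := h2
      have h3 := hBJ i _ (hcon _ ha _ hc)
      rw [hfx] at h3
      exact one_ne_zero h3
  have hsub : range x ⊆ sphere (0 : X) 1 := by
    rintro _ ⟨i, rfl⟩
    simpa using hx1 i
  have hK := hP _ hsub hgood
  let bx : Basis (Fin (k + 2)) ℝ X := basisOfLinearIndependentOfCardEqFinrank hind
    (by rw [Fintype.card_fin, hk])
  have hbx : ∀ i, bx i = x i := fun i => by simp [bx]
  let T : X →ₗ[ℝ] X := bx.constr ℝ fun j => if j = 0 then (1 / 2 : ℝ) • (x 0 + x 1) else x j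
  have hT : ∀ j, T (x j) = if j = 0 then (1 / 2 : ℝ) • (x 0 + x 1) else x j := by
    intro j
    rw [← hbx, Basis.constr_basis]
    simp only [hbx]
  have hfT : ∀ z, f (T z) = f z := by
    have h1 : f ∘ₗ T = f := by
      refine bx.ext fun j => ?_
      rw [LinearMap.comp_apply, hbx, hT]
      by_cases hj : j = 0
      · simp only [hj, if_true, map_smul, map_add, hfx, smul_eq_mul]
        norm_num
      · rw [if_neg hj]
    intro z
    exact LinearMap.congr_fun h1 z
  have hTn : ∀ j, ‖T (x j)‖ ≤ 1 := by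
    intro j
    rw [hT]
    by_cases hj : j = 0
    · rw [if_pos hj, norm_smul]
      have h1 := norm_add_le (x 0) (x 1)
      rw [hx1, hx1] at h1
      norm_num
      linarith
    · rw [if_neg hj, hx1]
  obtain ⟨c, U, hU⟩ := hK.2 T (by
    rintro _ ⟨i, rfl⟩ z hz t
    have h1 := hBJ i z hz
    have h2 := hle (T (x i + t • z))
    have h3 : f (T (x i + t • z)) = 1 := by
      rw [hfT, map_add, hfx, LinearMap.map_smul, h1, smul_zero, add_zero]
    have h4 : T (x i + t • z) = T (x i) + t • T z := by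
      rw [T.map_add (x i) (t • z), T.map_smul t z]
    rw [h3, abs_one, h4] at h2
    exact (hTn i).trans h2)
  have h10 : (1 : Fin (k + 2)) ≠ 0 := by simp
  have e1 : c • U (x 1) = x 1 := by
    rw [← hU, hT, if_neg h10]
  have hc : |c| = 1 := by
    have h5 := congrArg norm e1
    rw [norm_smul, U.norm_map, hx1, mul_one, Real.norm_eq_abs] at h5
    exact h5
  have e2 : c • U (x 0 - x 1) = (1 / 2 : ℝ) • (x 0 - x 1) := by
    rw [← hU, map_sub, hT, hT, if_pos rfl, if_neg h10]
    module
  have h6 := congrArg norm e2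
  rw [norm_smul, norm_smul, U.norm_map, Real.norm_eq_abs, hc, one_mul] at h6
  have h7 : ‖x 0 - x 1‖ = 0 := by
    norm_num at h6
    linarith
  have h8 : x 0 = x 1 := sub_eq_zero.1 (norm_eq_zero.1 h7)
  exact h10 (hind.injective h8).symm

end Q86.MK
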