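import Pool.Agent.Q86.MK.A
import Pool.Agent.Q86.MK.C
import Pool.Agent.Q86.MK.D

set_option autoImplicit false

namespace Q86.MK

open Module Metric Set

variable {X : Type*} [NormedAddCommGroup X] [NormedSpace ℝ X] [FiniteDimensional ℝ X]

/-- A system of smooth points is a good basis. -/
lemma Sys.entries_ne {m : ℕ} {s : ℝ} {x : Fin (m + 1) → X} {f : Fin (m + 1) → X →ₗ[ℝ] ℝ}
    (h : Sys s x f) (h0 : 0 < s) (i j : Fin (m + 1)) : f i (x j) ≠ 0 := by
  by_cases hij : j = i
  · subst hij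
    rw [h.self]
    exact one_ne_zero
  · by_cases hi : i = 0
    · subst hi
      exact h.ne j
    · rw [h.eq i hi j hij]
      exact div_ne_zero (mul_ne_zero h0.ne' (h.ne j)) (h.ne i)

lemma Sys.not_BJ {m : ℕ} {s : ℝ} {x : Fin (m + 1) → X} {f : Fin (m + 1) → X →ₗ[ℝ] ℝ}
    (h : Sys s x f) (h0 : 0 < s)
    (hs : ∀ i, DifferentiableAt ℝ (fun z : X => ‖z‖) (x i)) (i j : Fin (m + 1)) :
    ¬ BJ (x i) (x j) := by
  intro hcon
  have h1 := fderiv_eq_of_BJ (hs i) hcon
  rw [fderiv_eq_of_support (hs i) (h.le i) (by rw [h.self, h.norm_x])] at h1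
  exact h.entries_ne h0 i j h1

lemma Sys.good {m : ℕ} {s : ℝ} {x : Fin (m + 1) → X} {f : Fin (m + 1) → X →ₗ[ℝ] ℝ}
    (h : Sys s x f) (h0 : 0 < s) (hm : finrank ℝ X = m + 1)
    (hs : ∀ i, DifferentiableAt ℝ (fun z : X => ‖z‖) (x i)) : IsGoodBasis (range x) := by
  refine ⟨?_, ?_⟩
  · refine ⟨x ∘ (finCongr hm), h.ind.comp _ (finCongr hm).injective, ?_⟩
    rw [(finCongr hm).surjective.range_comp]
  · rintro A₁ A₂ ⟨a, ha⟩ ⟨b, hb⟩ hA hcon
    have h1 : a ∈ range x := by
      rw [hA]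
      exact Or.inl ha
    have h2 : b ∈ range x := by
      rw [hA]
      exact Or.inr hb
    obtain ⟨i, rfl⟩ := h1
    obtain ⟨j, rfl⟩ := h2
    exact h.not_BJ h0 hs i j (hcon _ ha _ hb)

/-- If a smooth system is a `K`-set then the isometries act transitively on the sphere. -/
theorem Sys.transitive {m : ℕ} {s : ℝ} {x : Fin (m + 1) → X} {f : Fin (m + 1) → X →ₗ[ℝ] ℝ}
    (h : Sys s x f) (h0 : 0 < s) (h1 : s < 1) (hm : finrank ℝ X = m + 1)
    (hs : ∀ i, DifferentiableAt ℝ (fun z : X => ‖z‖) (x i)) (hK : IsKSet (range x))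
    (y : X) (hy : ‖y‖ = 1) : ∃ U : X ≃ₗᵢ[ℝ] X, U (x 0) = y ∨ U (x 0) = -y := by
  classical
  have hnt : Nontrivial X := by
    rw [← Module.finrank_pos_iff (R := ℝ)]
    omega
  obtain ⟨g, hg1, hg2⟩ := exists_dual_vector'' ℝ y
  have hgle : ∀ z, |(g : X →ₗ[ℝ] ℝ) z| ≤ ‖z‖ := by
    intro z
    have := g.le_opNorm z
    have h3 : ‖g‖ * ‖z‖ ≤ 1 * ‖z‖ := mul_le_mul_of_nonneg_right hg1 (norm_nonneg z)
    rw [one_mul] at h3
    exact this.trans h3
  have hgy : (g : X →ₗ[ℝ] ℝ) y = 1 := by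
    have : g y = ‖y‖ := by simpa using hg2
    rw [hy] at this
    exact this
  obtain ⟨v, k, hv0, hk0, hS⟩ := exists_sys hm hy (g : X →ₗ[ℝ] ℝ) hgle hgy h0 h1
  let bx : Basis (Fin (m + 1)) ℝ X := basisOfLinearIndependentOfCardEqFinrank h.ind
    (by rw [Fintype.card_fin, hm])
  have hbx : ∀ i, bx i = x i := fun i => by simp [bx]
  let r : Fin (m + 1) → ℝ := fun i => f 0 (x i) / k 0 (v i)
  have hr0 : r 0 = 1 := by
    simp only [r]
    rw [h.self, hS.self, div_one]
  have hr : ∀ i, r i ≠ 0 := fun i => div_ne_zero (h.ne i) (hS.ne i)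
  let T : X →ₗ[ℝ] X := bx.constr ℝ fun i => r i • v i
  have hT : ∀ i, T (x i) = r i • v i := by
    intro i
    rw [← hbx, Basis.constr_basis]
  have hkT : ∀ i z, k i (T z) = r i * f i z := by
    intro i
    have h3 : (k i) ∘ₗ T = r i • f i := by
      refine bx.ext fun j => ?_
      rw [LinearMap.comp_apply, hbx, hT, map_smul, LinearMap.smul_apply, smul_eq_mul, smul_eq_mul]
      by_cases hij : j = i
      · subst hij
        rw [hS.self, h.self]
      · by_cases hi : i = 0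
        · subst hi
          rw [hr0, one_mul]
          simp only [r]
          exact div_mul_cancel₀ _ (hS.ne j)
        · rw [hS.eq i hi j hij, h.eq i hi j hij]
          simp only [r]
          have h4 := hS.ne j
          have h5 := hS.ne i
          have h6 := h.ne i
          field_simp
    intro z
    have h4 := LinearMap.congr_fun h3 z
    simpa using h4
  have hpres : ∀ p ∈ range x, PreservesAt T p := by
    rintro _ ⟨i, rfl⟩ z hz
    have h3 := fderiv_eq_of_BJ (hs i) hz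
    rw [fderiv_eq_of_support (hs i) (h.le i) (by rw [h.self, h.norm_x])] at h3
    intro t
    have h4 := hS.le i (T (x i) + t • T z)
    rw [map_add, map_smul, hkT, hkT, h3, mul_zero, smul_zero, add_zero, h.self, mul_one] at h4
    rw [hT] at h4 ⊢
    rw [norm_smul, hS.norm_x, mul_one, Real.norm_eq_abs]
    exact h4
  obtain ⟨c, U, hU⟩ := hK.2 T hpres
  have h3 : c • U (x 0) = y := by
    rw [← hU, hT, hr0, one_smul, hv0]
  have h4 : |c| = 1 := by
    have h5 := congrArg norm h3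
    rw [norm_smul, U.norm_map, h.norm_x, hy, mul_one, Real.norm_eq_abs] at h5
    exact h5
  refine ⟨U, ?_⟩
  rcases (abs_eq zero_le_one).1 h4 with hc | hc
  · left
    rw [hc, one_smul] at h3
    exact h3
  · right
    rw [hc, neg_smul, one_smul] at h3
    rw [← h3, neg_neg]

/-- A smooth system in a smooth space. -/
lemma exists_smooth_sys_of_smooth {m : ℕ} (hm : finrank ℝ X = m + 1)
    (hs : ∀ x : X, x ≠ 0 → DifferentiableAt ℝ (fun z : X => ‖z‖) x) :
    ∃ (x : Fin (m + 1) → X) (f : Fin (m + 1) → X →ₗ[ℝ] ℝ), Sys (1 / 2) x f ∧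
      ∀ i, DifferentiableAt ℝ (fun z : X => ‖z‖) (x i) := by
  have hnt : Nontrivial X := by
    rw [← Module.finrank_pos_iff (R := ℝ)]
    omega
  obtain ⟨y, hy⟩ := exists_norm_eq X (zero_le_one (α := ℝ))
  have hy0 : y ≠ 0 := by
    rintro rfl
    simp at hy
  obtain ⟨h1, h2⟩ := fderiv_props (hs y hy0)
  obtain ⟨x, f, -, -, h⟩ := exists_sys hm hy (fderiv ℝ (fun z : X => ‖z‖) y : X →ₗ[ℝ] ℝ) h2
    (by simpa [hy] using h1) (s := 1 / 2) (by norm_num) (by norm_num)
  refine ⟨x, f, h, fun i => hs _ ?_⟩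
  intro h3
  have := h.norm_x i
  rw [h3] at this
  simp at this

/-- A smooth system in an arbitrary plane. -/
lemma exists_smooth_sys_of_two (hm : finrank ℝ X = 1 + 1) :
    ∃ (s : ℝ) (x : Fin (1 + 1) → X) (f : Fin (1 + 1) → X →ₗ[ℝ] ℝ), 0 < s ∧ s < 1 ∧ Sys s x f ∧
      ∀ i, DifferentiableAt ℝ (fun z : X => ‖z‖) (x i) := by
  obtain ⟨x, y, hx, hy, dx, dy, hxy, hne⟩ := exists_pair (X := X) (by omega)
  obtain ⟨a1, a2⟩ := fderiv_props dx
  obtain ⟨b1, b2⟩ := fderiv_props dy
  set f := fderiv ℝ (fun z : X => ‖z‖) x with hf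
  set g := fderiv ℝ (fun z : X => ‖z‖) y with hg
  rw [hx] at a1
  rw [hy] at b1
  have p1 : 0 < f y := by
    have := (abs_le.1 (a2 (y - x))).1
    rw [map_sub, a1, norm_sub_rev] at this
    linarith
  have p2 : 0 < g x := by
    have := (abs_le.1 (b2 (x - y))).1
    rw [map_sub, b1] at this
    linarith
  have q1 : f y ≤ 1 := by
    have := (le_abs_self _).trans (a2 y)
    rwa [hy] at this
  have q2 : g x < 1 := by
    have h3 := (le_abs_self _).trans (b2 x)
    rw [hx] at h3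
    refine lt_of_le_of_ne h3 fun h4 => hne ?_
    ext z
    exact fderiv_eq_of_support dx (f := (g : X →ₗ[ℝ] ℝ)) b2 (by rw [hx]; exact h4) z
  refine ⟨f y * g x, ![x, y], ![(f : X →ₗ[ℝ] ℝ), (g : X →ₗ[ℝ] ℝ)], mul_pos p1 p2, by nlinarith,
    ⟨?_, ?_, ?_, ?_, ?_, ?_⟩, ?_⟩
  · intro i
    fin_cases i
    · simpa using hx
    · simpa using hy
  · intro i z
    fin_cases i
    · simpa using a2 z
    · simpa using b2 z
  · intro i
    fin_cases i
    · simpa using a1
    · simpa using b1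
  · intro j
    fin_cases j
    · simp [a1]
    · simpa using p1.ne'
  · intro i hi j hj
    have hi1 : i = 1 := by
      fin_cases i
      · simp at hi
      · rfl
    subst hi1
    have hj0 : j = 0 := by
      fin_cases j
      · rfl
      · simp at hj
    subst hj0
    simp only [Matrix.cons_val_zero, Matrix.cons_val_one, ContinuousLinearMap.coe_coe]
    rw [a1, mul_one]
    field_simp
  · rw [LinearIndependent.pair_iff]
    intro s t hst
    have h5 := congrArg f hst
    have h6 := congrArg g hst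
    simp only [map_add, map_smul, smul_eq_mul, a1, b1, map_zero, mul_one] at h5 h6
    have h7 : t * (1 - f y * g x) = 0 := by
      have h8 : s = -(t * f y) := by linarith
      rw [h8] at h6
      linarith
    have h9 : t = 0 := by
      rcases mul_eq_zero.1 h7 with h | h
      · exact h
      · exfalso
        nlinarith
    refine ⟨?_, h9⟩
    rw [h9, zero_mul, add_zero] at h5
    exact h5
  · intro i
    fin_cases i
    · simpa using dx
    · simpa using dy

/-- **Main theorem.** -/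
theorem hilbert_of_propertyP (hdim : 2 ≤ finrank ℝ X)
    (hX : finrank ℝ X = 2 ∨ ∀ x : X, x ≠ 0 → DifferentiableAt ℝ (fun z : X => ‖z‖) x)
    (hP : ∀ A : Set X, A ⊆ sphere 0 1 → IsGoodBasis A → IsKSet A) : IsHilbert X := by
  obtain ⟨m, hm⟩ : ∃ m, finrank ℝ X = m + 1 := ⟨finrank ℝ X - 1, by omega⟩
  have key : ∀ (m : ℕ) (_ : finrank ℝ X = m + 1) (s : ℝ) (x : Fin (m + 1) → X)
      (f : Fin (m + 1) → X →ₗ[ℝ] ℝ), 0 < s → s < 1 → Sys s x f →
      (∀ i, DifferentiableAt ℝ (fun z : X => ‖z‖) (x i)) → IsHilbert X := by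
    intro m hm s x f h0 h1 h hs
    have hsub : range x ⊆ sphere (0 : X) 1 := by
      rintro _ ⟨i, rfl⟩
      simpa using h.norm_x i
    exact hilbert_of_transitive (h.norm_x 0)
      (h.transitive h0 h1 hm hs (hP _ hsub (h.good h0 hm hs)))
  rcases hX with h2 | hs
  · obtain ⟨s, x, f, h0, h1, h, hs⟩ := exists_smooth_sys_of_two (X := X) (by omega)
    exact key 1 (by omega) s x f h0 h1 h hs
  · obtain ⟨x, f, h, hs'⟩ := exists_smooth_sys_of_smooth hm hs
    exact key m hm (1 / 2) x f (by norm_num) (by norm_num) h hs'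

end Q86.MK
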